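import Pool.Agent.Helper68.DS.All

/-!
For every `k ≥ 1`, a general quaternary form of degree `k` is a sum of
`⌈k/12 + 1/2 + 10k/(12k² + 12)⌉` determinants of `k × k` matrices of linear forms (Q1 of
MP_52cd29_ag).
-/

namespace Pool.Agent.Results.MP_52cd29_ag.ExactNumber

open Pool.Agent.Helper74.SD

theorem result : ∀ k : ℕ, 1 ≤ k →
    GeneralIsSumOfDets k
      ⌈(k : ℝ) / 12 + 1 / 2 + 10 * (k : ℝ) / (12 * (k : ℝ) ^ 2 + 12)⌉₊ :=
  fun k hk => Pool.Agent.Helper68.DS.main k hk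

end Pool.Agent.Results.MP_52cd29_ag.ExactNumber
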